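import Pool.Agent.K4H20.DU.Fin
import Pool.Agent.K4H2.EC.G4

/-! # The interval sums over a thin subgroup -/

set_option autoImplicit false

namespace Pool.Agent.K4H20.DU
open scoped Classical

theorem dual : StDual := by
  refine dual_of fun ε hε => ?_
  obtain ⟨q₀, h⟩ := Pool.Agent.K4H2.EC.pair_bound ε hε
  refine ⟨q₀, fun q _ hq G hG X hX => (h q hq G hG X hX).trans ?_⟩
  have h1 : (0 : ℝ) ≤ (q : ℝ) ^ ε := Real.rpow_nonneg (Nat.cast_nonneg _) _
  have h2 : (0 : ℝ) ≤ (Fintype.card G : ℝ) := Nat.cast_nonneg _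
  refine mul_le_mul_of_nonneg_left ?_ h1
  linarith

end Pool.Agent.K4H20.DU
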