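import Pool.Agent.K4H20.DU.Spec
import Pool.Agent.K4H2.EC.G3

/-! # The two forms of the pairs -/

set_option autoImplicit false

namespace Pool.Agent.K4H20.DU
open Finset Pool.Agent.R311.RES Pool.Agent.K4H49.AC
open scoped Classical

variable {q : ℕ} [Fact q.Prime]

theorem PX_le (G : Subgroup (ZMod q)ˣ) (X : ℕ) (hX : X < q) :
    PX G X ≤ (Pool.Agent.K4H2.EC.PX G X).card := by
  unfold PX
  refine card_le_card ?_
  intro z hz
  rw [mem_filter, mem_product, mem_Icc, mem_Icc] at hz
  rw [Pool.Agent.K4H2.EC.mem_PX]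
  refine ⟨hz.1, ?_⟩
  obtain ⟨g, hg, h⟩ := hz.2
  have h1 : un q z.1 = g * un q z.2 := by
    apply Units.ext
    rw [Units.val_mul, un_val (cop_of_lt (by omega) (by omega)), un_val (cop_of_lt (by omega) (by omega)), h]
  rw [h1, mul_inv_cancel_right]
  exact hg

end Pool.Agent.K4H20.DU
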