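import Mathlib
import Pool.Agent.K4H49.AC.A2

/-! # Sums over the elements of a thin subgroup in an interval: definitions and statements -/

set_option autoImplicit false

namespace Pool.Agent.K4H20.DU
open Finset Pool.Agent.K4H49.AC
open scoped Classical

variable {q : ℕ} [Fact q.Prime]

/-- the twisted exponential sum over `G` -/
noncomputable def Sx (G : Subgroup (ZMod q)ˣ) (χ : DirichletCharacter ℂ q) (m : ZMod q) : ℂ :=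
  ∑ g ∈ univ.filter (fun g : (ZMod q)ˣ => g ∈ G),
    χ (g : ZMod q) * ZMod.stdAddChar (m * (g : ZMod q))

/-- the pairs `1 ≤ a, b ≤ X` with ratio in `G` -/
noncomputable def PX (G : Subgroup (ZMod q)ˣ) (X : ℕ) : ℕ :=
  ((Icc 1 X ×ˢ Icc 1 X).filter
    (fun z : ℕ × ℕ => ∃ g ∈ G, (z.1 : ZMod q) = (g : ZMod q) * (z.2 : ZMod q))).card

/-- the interval sum -/
noncomputable def IA (G : Subgroup (ZMod q)ˣ) (χ : DirichletCharacter ℂ q) (t : (ZMod q)ˣ) (X : ℕ) : ℂ :=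
  ∑ g ∈ univ.filter (fun g : (ZMod q)ˣ => g ∈ G ∧ ((g * t : (ZMod q)ˣ) : ZMod q).val ≤ X),
    χ (g : ZMod q)

/-- P1: the fourth moment (Parseval for `|S|^2` and `HBK.rep_le`) -/
def StFourth : Prop := ∀ (q : ℕ) [Fact q.Prime] (G : Subgroup (ZMod q)ˣ) (χ : DirichletCharacter ℂ q),
  (Fintype.card G) ^ 4 < q ^ 3 →
    ∑ x : ZMod q, ‖Sx G χ x‖ ^ 4 ≤ 8 * (q : ℝ) * (Fintype.card G : ℝ) ^ (8 / 3 : ℝ)

/-- P2: Hölder over the cosets of `G` (average over `G` and two applications of Cauchy–Schwarz) -/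
def StHolder : Prop := ∀ (q : ℕ) [Fact q.Prime] (G : Subgroup (ZMod q)ˣ) (χ : DirichletCharacter ℂ q)
  (t : (ZMod q)ˣ) (X : ℕ), X < q →
    (∑ a ∈ Icc 1 X, ‖Sx G χ ((a : ZMod q) * (t : ZMod q))‖) ^ 4 ≤
      (X : ℝ) ^ 2 * (PX G X : ℝ) * (∑ x : ZMod q, ‖Sx G χ x‖ ^ 4) / (Fintype.card G : ℝ)

/-- P3: completion -/
def StCompl : Prop := ∀ (q : ℕ) [Fact q.Prime] (G : Subgroup (ZMod q)ˣ) (χ : DirichletCharacter ℂ q)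
  (t : (ZMod q)ˣ) (X : ℕ), 3 ≤ q → X < q →
    ‖IA G χ t X‖ ≤ (Fintype.card G : ℝ) * X / q + (1 / (q : ℝ)) *
      ∑ a ∈ Icc 1 (q / 2), min (X : ℝ) ((q : ℝ) / a) *
        (‖Sx G χ ((a : ZMod q) * (t : ZMod q))‖ + ‖Sx G χ ((a : ZMod q) * ((-t : (ZMod q)ˣ) : ZMod q))‖)

/-- the number of pairs (helper2) -/
def StPair : Prop := ∀ ε : ℝ, 0 < ε → ∃ q₀ : ℕ, ∀ (q : ℕ) [Fact q.Prime], q₀ ≤ q →
  ∀ (G : Subgroup (ZMod q)ˣ), (Fintype.card G : ℝ) ≤ (q : ℝ) ^ (15 / 41 : ℝ) → ∀ X : ℕ, X < q →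
    (PX G X : ℝ) ≤ (q : ℝ) ^ ε * ((Fintype.card G : ℝ) * (X : ℝ) ^ 2 / q + (Fintype.card G : ℝ) +
      (X : ℝ) * (q : ℝ) ^ (1 / 41 : ℝ))

/-- the interval sums are small -/
def StInt : Prop := ∀ ν : ℝ, 0 < ν → ∃ ε₁ : ℝ, 0 < ε₁ ∧ ∃ q₀ : ℕ, ∀ (q : ℕ) [Fact q.Prime], q₀ ≤ q →
  ∀ (G : Subgroup (ZMod q)ˣ), (Fintype.card G : ℝ) ≤ (q : ℝ) ^ (15 / 41 - ν : ℝ) →
    ∀ (χ : DirichletCharacter ℂ q) (t : (ZMod q)ˣ) (X : ℕ), X < q → (q : ℝ) ^ (26 / 41 : ℝ) ≤ X →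
      ‖IA G χ t X‖ ≤ (q : ℝ) ^ (-ε₁) * Real.sqrt X

/-- P4: dyadic blocks and exponents -/
def StStep4 : Prop := StFourth → StHolder → StCompl → StPair → StInt

/-- the result -/
def StDual : Prop := ∀ ν : ℝ, 0 < ν → ∃ ε₁ : ℝ, 0 < ε₁ ∧ ∃ q₀ : ℕ, ∀ (q : ℕ) [Fact q.Prime], q₀ ≤ q →
  ∀ (G : Subgroup (ZMod q)ˣ), (Fintype.card G : ℝ) ≤ (q : ℝ) ^ (15 / 41 - ν : ℝ) →
    ∀ (χ : DirichletCharacter ℂ q) (t : (ZMod q)ˣ) (N : ℕ), (q : ℝ) ^ (26 / 41 : ℝ) ≤ N →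
      ‖∑ g ∈ univ.filter (fun g : (ZMod q)ˣ => g ∈ G ∧ N < ((g * t : (ZMod q)ˣ) : ZMod q).val),
        χ (g : ZMod q) * (rs ((g * t : (ZMod q)ˣ) : ZMod q).val : ℂ)‖ ≤ (q : ℝ) ^ (-ε₁)

/-- P5: summation by parts (one may use `√v (rs v - rs (v + 1)) ≤ 1 / (v + 1)`) -/
def StStep5 : Prop := StInt → StDual

end Pool.Agent.K4H20.DU
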