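import Mathlib
import Pool.Agent.K4H20.DU.Spec

/-! # Hölder over the cosets of `G` -/

set_option autoImplicit false

namespace Pool.Agent.K4H20.DU
open Finset Pool.Agent.K4H49.AC
open scoped Classical

namespace P2

variable {q : ℕ} [Fact q.Prime]

lemma cardG (G : Subgroup (ZMod q)ˣ) :
    Fintype.card G = (univ.filter (fun g : (ZMod q)ˣ => g ∈ G)).card :=
  Fintype.card_of_subtype _ (by simp)

lemma inv (G : Subgroup (ZMod q)ˣ) (χ : DirichletCharacter ℂ q) (m : ZMod q) (g : (ZMod q)ˣ)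
    (hg : g ∈ G) : ‖Sx G χ (m * (g : ZMod q))‖ = ‖Sx G χ m‖ := by
  have h : χ (g : ZMod q) * Sx G χ (m * (g : ZMod q)) = Sx G χ m := by
    unfold Sx
    rw [Finset.mul_sum]
    refine Finset.sum_nbij' (fun h => g * h) (fun h => g⁻¹ * h) ?_ ?_ ?_ ?_ ?_
    · intro h hh
      simp only [mem_filter, mem_univ, true_and] at hh ⊢
      exact G.mul_mem hg hh
    · intro h hh
      simp only [mem_filter, mem_univ, true_and] at hh ⊢
      exact G.mul_mem (G.inv_mem hg) hh
    · intro h _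
      simp
    · intro h _
      simp
    · intro h _
      have e1 : ((g * h : (ZMod q)ˣ) : ZMod q) = (g : ZMod q) * (h : ZMod q) := Units.val_mul g h
      have e2 : m * (g : ZMod q) * (h : ZMod q) = m * ((g : ZMod q) * (h : ZMod q)) := by ring
      have e3 : χ ((g : ZMod q) * (h : ZMod q)) = χ (g : ZMod q) * χ (h : ZMod q) := map_mul χ _ _
      rw [e1, e2, e3]
      ring
  rw [← h, norm_mul, DirichletCharacter.unit_norm_eq_one χ g, one_mul]

lemma cast_ne {X a : ℕ} (hX : X < q) (ha : a ∈ Icc 1 X) : ((a : ℕ) : ZMod q) ≠ 0 := by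
  rw [mem_Icc] at ha
  intro h
  rw [ZMod.natCast_eq_zero_iff] at h
  exact absurd (Nat.le_of_dvd (by omega) h) (by omega)

lemma cast_inj {X a b : ℕ} (hX : X < q) (ha : a ∈ Icc 1 X) (hb : b ∈ Icc 1 X)
    (h : ((a : ℕ) : ZMod q) = ((b : ℕ) : ZMod q)) : a = b := by
  rw [mem_Icc] at ha hb
  have h1 := congrArg ZMod.val h
  rwa [ZMod.val_natCast, ZMod.val_natCast, Nat.mod_eq_of_lt (by omega),
    Nat.mod_eq_of_lt (by omega)] at h1

end P2

open P2 in
theorem holder : StHolder := by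
  intro q _ G χ t X hX
  set F := univ.filter (fun g : (ZMod q)ˣ => g ∈ G) with hF
  set f : ZMod q → ℝ := fun x => ‖Sx G χ x‖ with hf
  have hf0 : ∀ x, 0 ≤ f x := fun x => norm_nonneg _
  set n : ℝ := (Fintype.card G : ℝ) with hn
  have hnF : n = (F.card : ℝ) := by rw [hn, P2.cardG G]
  have hnpos : 0 < n := by
    rw [hnF]
    have : (1 : (ZMod q)ˣ) ∈ F := by simp [hF, G.one_mem]
    exact_mod_cast Finset.card_pos.mpr ⟨_, this⟩
  set P := (Icc 1 X) ×ˢ F with hP
  set φ : ℕ × (ZMod q)ˣ → ZMod q := fun z => (z.1 : ZMod q) * (t : ZMod q) * (z.2 : ZMod q) with hφ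
  set s := ∑ a ∈ Icc 1 X, ‖Sx G χ ((a : ZMod q) * (t : ZMod q))‖ with hs
  have hns : n * s = ∑ z ∈ P, f (φ z) := by
    rw [hP, Finset.sum_product]
    have : ∀ a ∈ Icc 1 X, ∑ g ∈ F, f (φ (a, g)) = n * ‖Sx G χ ((a : ZMod q) * (t : ZMod q))‖ := by
      intro a _
      rw [Finset.sum_congr rfl (g := fun _ => ‖Sx G χ ((a : ZMod q) * (t : ZMod q))‖)]
      · rw [Finset.sum_const, nsmul_eq_mul, hnF]
      · intro g hg
        rw [hF, mem_filter] at hg
        exact P2.inv G χ _ g hg.2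
    rw [Finset.sum_congr rfl this, ← Finset.mul_sum]
  set N : ZMod q → ℝ := fun x => ((P.filter (fun z => φ z = x)).card : ℝ) with hN
  have hsum2 : ∑ z ∈ P, f (φ z) ^ 2 = ∑ x : ZMod q, f x ^ 2 * N x := by
    rw [← Finset.sum_fiberwise P φ (fun z => f (φ z) ^ 2)]
    refine Finset.sum_congr rfl fun x _ => ?_
    rw [Finset.sum_congr rfl (g := fun _ => f x ^ 2)]
    · rw [Finset.sum_const, nsmul_eq_mul, mul_comm]
    · intro z hz
      rw [mem_filter] at hz
      rw [hz.2]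
  have hcardP : (P.card : ℝ) = X * n := by
    rw [hP, Finset.card_product, hnF]
    simp
  have c1 : (∑ z ∈ P, f (φ z)) ^ 2 ≤ (X * n) * ∑ x : ZMod q, f x ^ 2 * N x := by
    rw [← hsum2, ← hcardP]
    exact sq_sum_le_card_mul_sum_sq
  have c2 : (∑ x : ZMod q, f x ^ 2 * N x) ^ 2 ≤ (∑ x : ZMod q, f x ^ 4) * ∑ x : ZMod q, N x ^ 2 := by
    have := Finset.sum_mul_sq_le_sq_mul_sq univ (fun x => f x ^ 2) N
    refine this.trans_eq ?_
    congr 1
    refine Finset.sum_congr rfl fun x _ => ?_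
    ring
  have c3 : ∑ x : ZMod q, N x ^ 2 ≤ n * (PX G X : ℝ) := by
    have e1 : ∑ x : ZMod q, N x ^ 2 = ∑ z ∈ P, N (φ z) := by
      rw [← Finset.sum_fiberwise P φ (fun z => N (φ z))]
      refine Finset.sum_congr rfl fun x _ => ?_
      rw [Finset.sum_congr rfl (g := fun _ => N x)]
      · rw [Finset.sum_const, nsmul_eq_mul, sq]
      · intro z hz
        rw [mem_filter] at hz
        rw [hz.2]
    have e2 : (PX G X : ℝ) = ∑ a ∈ Icc 1 X, (((Icc 1 X).filter
        (fun b : ℕ => ∃ g ∈ G, (a : ZMod q) = (g : ZMod q) * (b : ZMod q))).card : ℝ) := by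
      unfold PX
      rw [Finset.card_filter, Finset.sum_product]
      push_cast
      refine Finset.sum_congr rfl fun a _ => ?_
      rw [Finset.card_filter]
      push_cast
      rfl
    rw [e1, e2, Finset.mul_sum, hP, Finset.sum_product]
    refine Finset.sum_le_sum fun a ha => ?_
    have e3 : ∀ g ∈ F, N (φ (a, g)) ≤ (((Icc 1 X).filter
        (fun b : ℕ => ∃ g ∈ G, (a : ZMod q) = (g : ZMod q) * (b : ZMod q))).card : ℝ) := by
      intro g hg
      have hg' : g ∈ G := by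
        rw [hF, mem_filter] at hg
        exact hg.2
      simp only [hN]
      refine Nat.cast_le.mpr ?_
      refine Finset.card_le_card_of_injOn (fun w => w.1) ?_ ?_
      · intro w hw
        rw [Finset.mem_coe, mem_filter, hP, mem_product, hF, mem_filter] at hw
        obtain ⟨⟨hw1, _, hw2⟩, hw3⟩ := hw
        simp only [coe_filter, Set.mem_ofPred_eq]
        refine ⟨hw1, w.2 * g⁻¹, G.mul_mem hw2 (G.inv_mem hg'), ?_⟩
        simp only [hφ] at hw3
        have ht : (t : ZMod q) ≠ 0 := t.ne_zero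
        have hg0 : (g : ZMod q) ≠ 0 := g.ne_zero
        rw [Units.val_mul, Units.val_inv_eq_inv_val]
        field_simp
        have : ((a : ZMod q) * (g : ZMod q)) * (t : ZMod q) =
            ((w.1 : ZMod q) * (w.2 : ZMod q)) * (t : ZMod q) := by
          linear_combination -hw3
        have h4 := mul_right_cancel₀ ht this
        linear_combination h4
      · intro w hw v hv hwv
        rw [Finset.mem_coe, mem_filter, hP, mem_product] at hw hv
        obtain ⟨⟨hw1, _⟩, hw3⟩ := hw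
        obtain ⟨_, hv3⟩ := hv
        simp only at hwv
        have hne : ((w.1 : ℕ) : ZMod q) * (t : ZMod q) ≠ 0 :=
          mul_ne_zero (P2.cast_ne hX hw1) t.ne_zero
        simp only [hφ] at hw3 hv3
        rw [← hwv, ← hw3] at hv3
        have h5 : (v.2 : ZMod q) = (w.2 : ZMod q) := mul_left_cancel₀ hne hv3
        exact Prod.ext hwv (Units.ext h5.symm)
    calc ∑ g ∈ F, N (φ (a, g)) ≤ ∑ g ∈ F, (((Icc 1 X).filter
        (fun b : ℕ => ∃ g ∈ G, (a : ZMod q) = (g : ZMod q) * (b : ZMod q))).card : ℝ) :=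
          Finset.sum_le_sum e3
      _ = _ := by rw [Finset.sum_const, nsmul_eq_mul, hnF]
  have hf4 : 0 ≤ ∑ x : ZMod q, f x ^ 4 := Finset.sum_nonneg fun x _ => by positivity
  have hmid : 0 ≤ ∑ x : ZMod q, f x ^ 2 * N x :=
    Finset.sum_nonneg fun x _ => mul_nonneg (by positivity) (by simp only [hN]; positivity)
  have main : (n * s) ^ 4 ≤ (X * n) ^ 2 * ((∑ x : ZMod q, f x ^ 4) * (n * (PX G X : ℝ))) := by
    rw [hns]
    calc (∑ z ∈ P, f (φ z)) ^ 4 = ((∑ z ∈ P, f (φ z)) ^ 2) ^ 2 := by ring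
      _ ≤ ((X * n) * ∑ x : ZMod q, f x ^ 2 * N x) ^ 2 :=
          pow_le_pow_left₀ (sq_nonneg _) c1 2
      _ = (X * n) ^ 2 * (∑ x : ZMod q, f x ^ 2 * N x) ^ 2 := by ring
      _ ≤ (X * n) ^ 2 * ((∑ x : ZMod q, f x ^ 4) * ∑ x : ZMod q, N x ^ 2) :=
          mul_le_mul_of_nonneg_left c2 (sq_nonneg _)
      _ ≤ _ := mul_le_mul_of_nonneg_left (mul_le_mul_of_nonneg_left c3 hf4) (sq_nonneg _)
  rw [le_div_iff₀ hnpos]
  have hn3 : 0 < n ^ 3 := by positivity
  refine le_of_mul_le_mul_left ?_ hn3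
  calc n ^ 3 * (s ^ 4 * n) = (n * s) ^ 4 := by ring
    _ ≤ _ := main
    _ = n ^ 3 * ((X : ℝ) ^ 2 * (PX G X : ℝ) * (∑ x : ZMod q, f x ^ 4)) := by ring

end Pool.Agent.K4H20.DU
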