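import Pool.Agent.K4H20.DU.Spec

/-! # Completion -/

set_option autoImplicit false

namespace Pool.Agent.K4H20.DU
open Finset
open scoped Classical

namespace P3

variable {q : ℕ} [Fact q.Prime]

/-- the kernel -/
noncomputable def Kn (X : ℕ) (m : ZMod q) : ℂ :=
  ∑ n ∈ Icc 1 X, (ZMod.stdAddChar (-(m * (n : ZMod q))) : ℂ)

lemma norm_std (x : ZMod q) : ‖(ZMod.stdAddChar x : ℂ)‖ = 1 :=
  AddChar.norm_apply ZMod.stdAddChar x

lemma Kn_le (X : ℕ) (m : ZMod q) : ‖Kn X m‖ ≤ X := by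
  unfold Kn
  refine (norm_sum_le _ _).trans ?_
  rw [Finset.sum_congr rfl fun n _ => norm_std _]
  simp

lemma std_sub_one (j : ℤ) (a : ℕ) (h2 : a ≤ q / 2) (hj : j = a ∨ j = -a) :
    4 * (a : ℝ) / q ≤ ‖(ZMod.stdAddChar ((j : ℤ) : ZMod q) : ℂ) - 1‖ := by
  have hq : (0 : ℝ) < q := Nat.cast_pos.2 (Fact.out : q.Prime).pos
  have e1 : (ZMod.stdAddChar ((j : ℤ) : ZMod q) : ℂ) =
      Complex.exp (Complex.I * ((2 * Real.pi * j / q : ℝ) : ℂ)) := by
    rw [ZMod.stdAddChar_coe]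
    congr 1
    push_cast
    ring
  rw [e1, Complex.norm_exp_I_mul_ofReal_sub_one]
  have h3 : 2 * (a : ℝ) ≤ q := by
    have : 2 * a ≤ q := by omega
    exact_mod_cast this
  have h4 : 2 / Real.pi * (Real.pi * a / q) ≤ Real.sin (Real.pi * a / q) := by
    refine Real.mul_le_sin (by positivity) ?_
    rw [div_le_div_iff₀ hq (by norm_num)]
    nlinarith [Real.pi_pos]
  have h5 : 2 / Real.pi * (Real.pi * a / q) = 2 * a / q := by
    have := Real.pi_pos.ne'
    field_simp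
  rw [h5] at h4
  have h6 : 0 ≤ 2 * (a : ℝ) / q := by positivity
  have h7 : ‖2 * Real.sin (2 * Real.pi * j / q / 2)‖ = 2 * Real.sin (Real.pi * a / q) := by
    rw [Real.norm_eq_abs]
    rcases hj with rfl | rfl
    · have : 2 * Real.pi * ((a : ℤ) : ℝ) / q / 2 = Real.pi * a / q := by
        push_cast
        ring
      rw [this, abs_of_nonneg (by linarith)]
    · have : 2 * Real.pi * ((-(a : ℤ) : ℤ) : ℝ) / q / 2 = -(Real.pi * a / q) := by
        push_cast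
        ring
      rw [this, Real.sin_neg, mul_neg, abs_neg, abs_of_nonneg (by linarith)]
  rw [h7]
  calc 4 * (a : ℝ) / q = 2 * (2 * a / q) := by ring
    _ ≤ _ := by linarith

lemma Kn_geo (X : ℕ) (j : ℤ) (a : ℕ) (h1 : 1 ≤ a) (h2 : a ≤ q / 2) (hj : j = a ∨ j = -a) :
    ‖Kn X ((j : ℤ) : ZMod q)‖ ≤ (q : ℝ) / a := by
  have hq : (0 : ℝ) < q := Nat.cast_pos.2 (Fact.out : q.Prime).pos
  have ha : (0 : ℝ) < a := Nat.cast_pos.2 h1
  set w : ℂ := ZMod.stdAddChar (((-j : ℤ)) : ZMod q) with hw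
  have hj' : -j = a ∨ -j = -a := by omega
  have h3 := std_sub_one (q := q) (-j) a h2 hj'
  have h4 : 0 < ‖w - 1‖ := lt_of_lt_of_le (by positivity) h3
  have h5 : w ≠ 1 := fun h => by
    rw [h, sub_self, norm_zero] at h4
    exact lt_irrefl _ h4
  have h6 : Kn X ((j : ℤ) : ZMod q) = w * ∑ n ∈ range X, w ^ n := by
    have e1 : Kn X ((j : ℤ) : ZMod q) = ∑ n ∈ Ico (0 + 1) (X + 1), w ^ n := by
      unfold Kn
      refine Finset.sum_congr (by ext n; simp only [mem_Icc, mem_Ico]; omega) fun n _ => ?_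
      rw [hw, ← AddChar.map_nsmul_eq_pow]
      congr 1
      push_cast
      rw [nsmul_eq_mul]
      ring
    rw [e1, ← Finset.sum_Ico_add', Finset.range_eq_Ico, Finset.mul_sum]
    refine Finset.sum_congr rfl fun n _ => ?_
    rw [pow_succ]
    ring
  rw [h6, geom_sum_eq h5, norm_mul, norm_div]
  have h7 : ‖w‖ = 1 := norm_std _
  have h8 : ‖w ^ X - 1‖ ≤ 2 := by
    refine (norm_sub_le _ _).trans ?_
    rw [norm_pow, h7, one_pow, norm_one]
    norm_num
  rw [h7, one_mul, div_le_div_iff₀ h4 ha]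
  have h9 : 4 * (a : ℝ) ≤ q * ‖w - 1‖ := by
    have := (div_le_iff₀ hq).1 h3
    linarith
  nlinarith

lemma detect (X : ℕ) (hX : X < q) (y : ZMod q) (hy : y ≠ 0) :
    ∑ m : ZMod q, Kn X m * (ZMod.stdAddChar (m * y) : ℂ) = if y.val ≤ X then (q : ℂ) else 0 := by
  have h1 : ∀ m : ZMod q, Kn X m * (ZMod.stdAddChar (m * y) : ℂ) =
      ∑ n ∈ Icc 1 X, (ZMod.stdAddChar (m * (y - (n : ZMod q))) : ℂ) := by
    intro m
    unfold Kn
    rw [Finset.sum_mul]
    refine Finset.sum_congr rfl fun n _ => ?_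
    rw [← AddChar.map_add_eq_mul]
    congr 1
    ring
  rw [Finset.sum_congr rfl fun m _ => h1 m, Finset.sum_comm]
  have h2 : ∀ n ∈ Icc 1 X, ∑ m : ZMod q, (ZMod.stdAddChar (m * (y - (n : ZMod q))) : ℂ) =
      if n = y.val then (q : ℂ) else 0 := by
    intro n hn
    rw [AddChar.sum_mulShift _ (ZMod.isPrimitive_stdAddChar q), ZMod.card]
    have h3 : y - (n : ZMod q) = 0 ↔ n = y.val := by
      rw [sub_eq_zero]
      constructor
      · intro h
        rw [h, ZMod.val_natCast_of_lt (by have := (mem_Icc.1 hn).2; omega)]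
      · intro h
        rw [h, ZMod.natCast_zmod_val]
    simp only [h3]
    split_ifs <;> simp
  rw [Finset.sum_congr rfl h2, Finset.sum_ite_eq']
  have h4 : 1 ≤ y.val := Nat.one_le_iff_ne_zero.2 fun h => hy ((ZMod.val_eq_zero y).1 h)
  simp only [mem_Icc, h4, true_and]

lemma norm_Sx (G : Subgroup (ZMod q)ˣ) (χ : DirichletCharacter ℂ q) (m : ZMod q) :
    ‖Sx G χ m‖ ≤ Fintype.card G := by
  unfold Sx
  refine (norm_sum_le _ _).trans ?_
  have h1 : ∀ g ∈ univ.filter (fun g : (ZMod q)ˣ => g ∈ G),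
      ‖χ (g : ZMod q) * (ZMod.stdAddChar (m * (g : ZMod q)) : ℂ)‖ ≤ 1 := by
    intro g _
    rw [norm_mul, norm_std, mul_one]
    exact DirichletCharacter.norm_le_one χ _
  refine (Finset.sum_le_sum h1).trans ?_
  rw [Finset.sum_const, nsmul_eq_mul, mul_one, Fintype.card_subtype]

lemma cover (h : ZMod q → ℝ) (hh : ∀ m, 0 ≤ h m) :
    ∑ m ∈ univ.filter (fun m : ZMod q => m ≠ 0), h m ≤
      ∑ a ∈ Icc 1 (q / 2), (h ((a : ℤ) : ZMod q) + h ((-(a : ℤ) : ℤ) : ZMod q)) := by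
  have hq := (Fact.out : q.Prime).two_le
  have hsub : univ.filter (fun m : ZMod q => m ≠ 0) ⊆
      (Icc 1 (q / 2)).image (fun a : ℕ => (((a : ℤ)) : ZMod q)) ∪
      (Icc 1 (q / 2)).image (fun a : ℕ => ((-(a : ℤ) : ℤ) : ZMod q)) := by
    intro m hm
    have hm0 := (mem_filter.1 hm).2
    have h1 : 1 ≤ m.val := Nat.one_le_iff_ne_zero.2 fun h => hm0 ((ZMod.val_eq_zero m).1 h)
    have h2 := ZMod.val_lt m
    rw [mem_union, mem_image, mem_image]
    rcases le_or_gt m.val (q / 2) with h3 | h3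
    · left
      refine ⟨m.val, mem_Icc.2 ⟨h1, h3⟩, ?_⟩
      push_cast
      exact ZMod.natCast_zmod_val m
    · right
      refine ⟨q - m.val, mem_Icc.2 ⟨by omega, by omega⟩, ?_⟩
      rw [Nat.cast_sub h2.le]
      push_cast
      rw [ZMod.natCast_self, ZMod.natCast_zmod_val]
      ring
  refine (Finset.sum_le_sum_of_subset_of_nonneg hsub fun m _ _ => hh m).trans ?_
  have h5 := Finset.sum_union_inter (f := h)
    (s₁ := (Icc 1 (q / 2)).image (fun a : ℕ => (((a : ℤ)) : ZMod q)))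
    (s₂ := (Icc 1 (q / 2)).image (fun a : ℕ => ((-(a : ℤ) : ℤ) : ZMod q)))
  have h6 : 0 ≤ ∑ m ∈ (Icc 1 (q / 2)).image (fun a : ℕ => (((a : ℤ)) : ZMod q)) ∩
      (Icc 1 (q / 2)).image (fun a : ℕ => ((-(a : ℤ) : ℤ) : ZMod q)), h m :=
    Finset.sum_nonneg fun m _ => hh m
  have hinj : ∀ a ∈ Icc 1 (q / 2), ∀ b ∈ Icc 1 (q / 2), ((a : ℕ) : ZMod q) = (b : ℕ) → a = b := by
    intro a ha b hb hab
    have ha' := (mem_Icc.1 ha).2
    have hb' := (mem_Icc.1 hb).2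
    have h7 := congrArg ZMod.val hab
    rwa [ZMod.val_natCast_of_lt (by omega), ZMod.val_natCast_of_lt (by omega)] at h7
  rw [Finset.sum_image, Finset.sum_image] at h5
  · rw [Finset.sum_add_distrib]
    linarith
  · intro a ha b hb hab
    refine hinj a ha b hb ?_
    simp only at hab
    push_cast at hab
    exact neg_injective hab
  · intro a ha b hb hab
    refine hinj a ha b hb ?_
    simp only at hab
    push_cast at hab
    exact hab

end P3

theorem compl : StCompl := by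
  intro q _ G χ t X hq3 hX
  have hq : (0 : ℝ) < q := Nat.cast_pos.2 (Fact.out : q.Prime).pos
  have hqc : (q : ℂ) ≠ 0 := Nat.cast_ne_zero.2 (Fact.out : q.Prime).ne_zero
  -- the Fourier expansion
  have h1 : (q : ℂ) * IA G χ t X = ∑ m : ZMod q, P3.Kn X m * Sx G χ (m * (t : ZMod q)) := by
    have e1 : ∀ m : ZMod q, P3.Kn X m * Sx G χ (m * (t : ZMod q)) =
        ∑ g ∈ univ.filter (fun g : (ZMod q)ˣ => g ∈ G), χ (g : ZMod q) *
          (P3.Kn X m * (ZMod.stdAddChar (m * (((g * t : (ZMod q)ˣ) : ZMod q))) : ℂ)) := by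
      intro m
      unfold Sx
      rw [Finset.mul_sum]
      refine Finset.sum_congr rfl fun g _ => ?_
      have : m * (t : ZMod q) * (g : ZMod q) = m * (((g * t : (ZMod q)ˣ) : ZMod q)) := by
        push_cast
        ring
      rw [this]
      ring
    rw [Finset.sum_congr rfl fun m _ => e1 m, Finset.sum_comm]
    have e2 : ∀ g ∈ univ.filter (fun g : (ZMod q)ˣ => g ∈ G), ∑ m : ZMod q, χ (g : ZMod q) *
          (P3.Kn X m * (ZMod.stdAddChar (m * (((g * t : (ZMod q)ˣ) : ZMod q))) : ℂ)) =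
        if ((g * t : (ZMod q)ˣ) : ZMod q).val ≤ X then (q : ℂ) * χ (g : ZMod q) else 0 := by
      intro g _
      rw [← Finset.mul_sum, P3.detect X hX _ (Units.ne_zero _)]
      split_ifs
      · ring
      · ring
    rw [Finset.sum_congr rfl e2, ← Finset.sum_filter, Finset.filter_filter]
    unfold IA
    rw [Finset.mul_sum]
  -- the bound
  have h2 : (q : ℝ) * ‖IA G χ t X‖ ≤ X * Fintype.card G +
      ∑ m ∈ univ.filter (fun m : ZMod q => m ≠ 0), ‖P3.Kn X m‖ * ‖Sx G χ (m * (t : ZMod q))‖ := by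
    have e1 : (q : ℝ) * ‖IA G χ t X‖ = ‖(q : ℂ) * IA G χ t X‖ := by
      rw [norm_mul, Complex.norm_natCast]
    rw [e1, h1]
    refine (norm_sum_le _ _).trans ?_
    rw [← Finset.sum_filter_add_sum_filter_not univ (fun m : ZMod q => m = 0)]
    refine add_le_add ?_ (le_of_eq (Finset.sum_congr rfl fun m _ => norm_mul _ _))
    rw [Finset.filter_eq' univ (0 : ZMod q), if_pos (Finset.mem_univ _), Finset.sum_singleton,
      norm_mul]
    exact mul_le_mul (P3.Kn_le X 0) (P3.norm_Sx G χ _) (norm_nonneg _) (Nat.cast_nonneg _)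
  have h3 := P3.cover (q := q) (fun m => ‖P3.Kn X m‖ * ‖Sx G χ (m * (t : ZMod q))‖)
    (fun m => mul_nonneg (norm_nonneg _) (norm_nonneg _))
  have h4 : ∑ a ∈ Icc 1 (q / 2), (‖P3.Kn X (((a : ℤ) : ℤ) : ZMod q)‖ *
        ‖Sx G χ ((((a : ℤ) : ℤ) : ZMod q) * (t : ZMod q))‖ +
      ‖P3.Kn X (((-(a : ℤ) : ℤ)) : ZMod q)‖ * ‖Sx G χ ((((-(a : ℤ) : ℤ)) : ZMod q) * (t : ZMod q))‖) ≤
      ∑ a ∈ Icc 1 (q / 2), min (X : ℝ) ((q : ℝ) / a) *
        (‖Sx G χ ((a : ZMod q) * (t : ZMod q))‖ + ‖Sx G χ ((a : ZMod q) * ((-t : (ZMod q)ˣ) : ZMod q))‖) := by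
    refine Finset.sum_le_sum fun a ha => ?_
    have ha1 := (mem_Icc.1 ha).1
    have ha2 := (mem_Icc.1 ha).2
    have e1 : ((((a : ℤ) : ℤ) : ZMod q) * (t : ZMod q)) = (a : ZMod q) * (t : ZMod q) := by push_cast; rfl
    have e2 : ((((-(a : ℤ) : ℤ)) : ZMod q) * (t : ZMod q)) =
        (a : ZMod q) * ((-t : (ZMod q)ˣ) : ZMod q) := by push_cast; ring
    rw [e1, e2, mul_add]
    refine add_le_add ?_ ?_
    · exact mul_le_mul_of_nonneg_right
        (le_min (P3.Kn_le X _) (P3.Kn_geo X a a ha1 ha2 (Or.inl rfl))) (norm_nonneg _)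
    · exact mul_le_mul_of_nonneg_right
        (le_min (P3.Kn_le X _) (P3.Kn_geo X (-a) a ha1 ha2 (Or.inr rfl))) (norm_nonneg _)
  have h5 : (q : ℝ) * ‖IA G χ t X‖ ≤ X * Fintype.card G +
      ∑ a ∈ Icc 1 (q / 2), min (X : ℝ) ((q : ℝ) / a) *
        (‖Sx G χ ((a : ZMod q) * (t : ZMod q))‖ +
          ‖Sx G χ ((a : ZMod q) * ((-t : (ZMod q)ˣ) : ZMod q))‖) :=
    h2.trans (add_le_add le_rfl (h3.trans h4))
  have h6 : ‖IA G χ t X‖ ≤ (X * Fintype.card G +
      ∑ a ∈ Icc 1 (q / 2), min (X : ℝ) ((q : ℝ) / a) *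
        (‖Sx G χ ((a : ZMod q) * (t : ZMod q))‖ +
          ‖Sx G χ ((a : ZMod q) * ((-t : (ZMod q)ˣ) : ZMod q))‖)) / q := by
    rw [le_div_iff₀ hq]
    linarith
  refine h6.trans (le_of_eq ?_)
  ring

end Pool.Agent.K4H20.DU
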