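import Pool.Agent.K4H20.DU.Spec

/-! # P5: summation by parts (helper5) -/

set_option autoImplicit false

namespace Pool.Agent.K4H20.DU
open Finset Pool.Agent.K4H49.AC
open scoped Classical

namespace P5

lemma rs_anti (v : ℕ) (hv : 1 ≤ v) : rs (v + 1) ≤ rs v := by
  unfold rs
  have h1 : (0 : ℝ) < Real.sqrt v := Real.sqrt_pos.2 (by exact_mod_cast hv)
  exact inv_anti₀ h1 (Real.sqrt_le_sqrt (by push_cast; linarith))

lemma sqrt_mul_diff (v : ℕ) (hv : 1 ≤ v) :
    Real.sqrt v * (rs v - rs (v + 1)) ≤ 1 / ((v : ℝ) + 1) := by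
  unfold rs
  have hv' : (0 : ℝ) < v := by exact_mod_cast hv
  have h1 : (0 : ℝ) < Real.sqrt v := Real.sqrt_pos.2 hv'
  have h2 : (0 : ℝ) < Real.sqrt ((v : ℝ) + 1) := Real.sqrt_pos.2 (by linarith)
  have e1 : Real.sqrt v * ((Real.sqrt v)⁻¹ - (Real.sqrt ((v + 1 : ℕ) : ℝ))⁻¹) =
      1 - Real.sqrt v / Real.sqrt ((v : ℝ) + 1) := by
    push_cast
    field_simp
  rw [e1, ← Real.sqrt_div hv'.le]
  have h3 : (v : ℝ) / (v + 1) ≤ Real.sqrt ((v : ℝ) / (v + 1)) := by
    apply Real.le_sqrt_of_sq_le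
    have h4 : (0 : ℝ) ≤ (v : ℝ) / (v + 1) := by positivity
    have h5 : (v : ℝ) / (v + 1) ≤ 1 := by
      rw [div_le_one (by linarith)]
      linarith
    nlinarith
  have h6 : (v : ℝ) / (v + 1) = 1 - 1 / ((v : ℝ) + 1) := by
    field_simp
    ring
  linarith

lemma rs_tele (m Q : ℕ) (h : m ≤ Q) :
    rs m = rs Q + ∑ v ∈ Ico m Q, (rs v - rs (v + 1)) := by
  have h1 := Finset.sum_Ico_sub (fun v => rs v) h
  have h2 : ∑ v ∈ Ico m Q, (rs v - rs (v + 1)) = - ∑ v ∈ Ico m Q, (rs (v + 1) - rs v) := by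
    rw [← Finset.sum_neg_distrib]
    exact Finset.sum_congr rfl fun _ _ => by ring
  rw [h2, h1]
  ring

lemma harm (N Q : ℕ) : ∑ v ∈ Ico (N + 1) Q, 1 / ((v : ℝ) + 1) ≤ 1 + Real.log Q := by
  have h1 := harmonic_le_one_add_log Q
  have h2 : ((harmonic Q : ℚ) : ℝ) = ∑ v ∈ range Q, 1 / ((v : ℝ) + 1) := by
    unfold harmonic
    push_cast
    exact Finset.sum_congr rfl fun _ _ => by rw [one_div]
  rw [h2] at h1
  refine le_trans (Finset.sum_le_sum_of_subset_of_nonneg ?_ ?_) h1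
  · intro v hv
    rw [Finset.mem_Ico] at hv
    exact Finset.mem_range.2 hv.2
  · intro v _ _
    positivity

lemma abel_bound {ι : Type*} (s : Finset ι) (w : ι → ℕ) (c : ι → ℂ) (N Q : ℕ) (hNQ : N < Q)
    (hw : ∀ i ∈ s, w i ≤ Q) (B : ℝ) (hB : 0 ≤ B)
    (hA : ∀ v, N ≤ v → v ≤ Q → ‖∑ i ∈ s.filter (fun i => w i ≤ v), c i‖ ≤ B * Real.sqrt v) :
    ‖∑ i ∈ s.filter (fun i => N < w i), c i * (rs (w i) : ℂ)‖ ≤
      2 * B * (2 + Real.log Q) := by
  have hD : ∀ v, N ≤ v → v ≤ Q →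
      ‖∑ i ∈ s.filter (fun i => N < w i ∧ w i ≤ v), c i‖ ≤ 2 * B * Real.sqrt v := by
    intro v h1 h2
    have e : ∑ i ∈ s.filter (fun i => w i ≤ v), c i =
        ∑ i ∈ s.filter (fun i => w i ≤ N), c i +
          ∑ i ∈ s.filter (fun i => N < w i ∧ w i ≤ v), c i := by
      rw [← Finset.sum_union]
      · congr 1
        ext i
        simp only [Finset.mem_filter, Finset.mem_union]
        constructor
        · rintro ⟨a, b⟩
          rcases Nat.lt_or_ge N (w i) with h | h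
          · exact Or.inr ⟨a, h, b⟩
          · exact Or.inl ⟨a, h⟩
        · rintro (⟨a, b⟩ | ⟨a, b, c⟩)
          · exact ⟨a, b.trans h1⟩
          · exact ⟨a, c⟩
      · rw [Finset.disjoint_left]
        intro i h3 h4
        simp only [Finset.mem_filter] at h3 h4
        omega
    have e2 : ∑ i ∈ s.filter (fun i => N < w i ∧ w i ≤ v), c i =
        ∑ i ∈ s.filter (fun i => w i ≤ v), c i - ∑ i ∈ s.filter (fun i => w i ≤ N), c i := by
      rw [e]
      ring
    rw [e2]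
    refine (norm_sub_le _ _).trans ?_
    have h3 := hA v h1 h2
    have h4 := hA N le_rfl hNQ.le
    have h5 : Real.sqrt N ≤ Real.sqrt v := Real.sqrt_le_sqrt (by exact_mod_cast h1)
    nlinarith [mul_le_mul_of_nonneg_left h5 hB]
  have hsum : ∑ i ∈ s.filter (fun i => N < w i), c i * (rs (w i) : ℂ) =
      (rs Q : ℂ) * ∑ i ∈ s.filter (fun i => N < w i ∧ w i ≤ Q), c i +
      ∑ v ∈ Ico (N + 1) Q, ((rs v - rs (v + 1) : ℝ) : ℂ) *
        ∑ i ∈ s.filter (fun i => N < w i ∧ w i ≤ v), c i := by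
    have e1 : s.filter (fun i => N < w i ∧ w i ≤ Q) = s.filter (fun i => N < w i) := by
      ext i
      simp only [Finset.mem_filter]
      constructor
      · rintro ⟨a, b, _⟩
        exact ⟨a, b⟩
      · rintro ⟨a, b⟩
        exact ⟨a, b, hw i a⟩
    rw [e1]
    have e2 : ∀ v ∈ Ico (N + 1) Q, ((rs v - rs (v + 1) : ℝ) : ℂ) *
        ∑ i ∈ s.filter (fun i => N < w i ∧ w i ≤ v), c i =
        ∑ i ∈ s.filter (fun i => N < w i),
          if w i ≤ v then c i * ((rs v - rs (v + 1) : ℝ) : ℂ) else 0 := by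
      intro v _
      rw [← Finset.sum_filter, Finset.filter_filter, Finset.mul_sum]
      exact Finset.sum_congr rfl fun _ _ => by ring
    rw [Finset.sum_congr rfl e2, Finset.sum_comm, Finset.mul_sum, ← Finset.sum_add_distrib]
    refine Finset.sum_congr rfl fun i hi => ?_
    rw [Finset.mem_filter] at hi
    rw [← Finset.sum_filter, ← Finset.mul_sum]
    have e3 : (Ico (N + 1) Q).filter (fun v => w i ≤ v) = Ico (w i) Q := by
      ext v
      simp only [Finset.mem_filter, Finset.mem_Ico]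
      constructor
      · rintro ⟨⟨a, b⟩, c⟩
        exact ⟨c, b⟩
      · rintro ⟨a, b⟩
        exact ⟨⟨by omega, b⟩, a⟩
    rw [e3]
    have h4 := rs_tele (w i) Q (hw i hi.1)
    have h5 : (rs (w i) : ℂ) = (rs Q : ℂ) + ∑ v ∈ Ico (w i) Q, ((rs v - rs (v + 1) : ℝ) : ℂ) := by
      rw [← Complex.ofReal_sum, ← Complex.ofReal_add, ← h4]
    rw [h5]
    ring
  rw [hsum]
  refine (norm_add_le _ _).trans ?_
  have hQ : 1 ≤ Q := by omega
  have t1 : ‖(rs Q : ℂ) * ∑ i ∈ s.filter (fun i => N < w i ∧ w i ≤ Q), c i‖ ≤ 2 * B := by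
    rw [norm_mul, Complex.norm_real, Real.norm_of_nonneg (rs_nonneg _)]
    refine (mul_le_mul_of_nonneg_left (hD Q hNQ.le le_rfl) (rs_nonneg _)).trans ?_
    have h1 : rs Q * Real.sqrt Q = 1 := by
      unfold rs
      exact inv_mul_cancel₀ (Real.sqrt_pos.2 (by exact_mod_cast hQ)).ne'
    calc rs Q * (2 * B * Real.sqrt Q) = 2 * B * (rs Q * Real.sqrt Q) := by ring
      _ ≤ 2 * B := by rw [h1]; linarith
  have t2 : ‖∑ v ∈ Ico (N + 1) Q, ((rs v - rs (v + 1) : ℝ) : ℂ) *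
        ∑ i ∈ s.filter (fun i => N < w i ∧ w i ≤ v), c i‖ ≤ 2 * B * (1 + Real.log Q) := by
    refine (norm_sum_le _ _).trans ?_
    refine le_trans (Finset.sum_le_sum (g := fun v : ℕ => 2 * B * (1 / ((v : ℝ) + 1))) ?_) ?_
    · intro v hv
      rw [Finset.mem_Ico] at hv
      have hv1 : 1 ≤ v := by omega
      have h0 : 0 ≤ rs v - rs (v + 1) := by linarith [rs_anti v hv1]
      rw [norm_mul, Complex.norm_real, Real.norm_of_nonneg h0]
      refine (mul_le_mul_of_nonneg_left (hD v (by omega) hv.2.le) h0).trans ?_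
      have h1 := sqrt_mul_diff v hv1
      calc (rs v - rs (v + 1)) * (2 * B * Real.sqrt v)
          = 2 * B * (Real.sqrt v * (rs v - rs (v + 1))) := by ring
        _ ≤ 2 * B * (1 / ((v : ℝ) + 1)) := mul_le_mul_of_nonneg_left h1 (by linarith)
    · rw [← Finset.mul_sum]
      exact mul_le_mul_of_nonneg_left (harm N Q) (by linarith)
  linarith

end P5

theorem step5 : StStep5 := by
  intro hI ν hν
  obtain ⟨ε₁, hε, q₀, h⟩ := hI ν hν
  have hC0 : (0 : ℝ) < 2 * (2 + 4 / ε₁) := by positivity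
  refine ⟨ε₁ / 2, by positivity, max (max q₀ 2) ⌈(2 * (2 + 4 / ε₁)) ^ (4 / ε₁)⌉₊, ?_⟩
  intro q _ hq G hG χ t N hN
  have hq0 : q₀ ≤ q := le_trans (le_trans (le_max_left _ _) (le_max_left _ _)) hq
  have hqC : (2 * (2 + 4 / ε₁)) ^ (4 / ε₁) ≤ (q : ℝ) :=
    (Nat.le_ceil _).trans (by exact_mod_cast le_trans (le_max_right _ _) hq)
  have hqp : 1 < q := (Fact.out : q.Prime).one_lt
  have hq1 : (1 : ℝ) < q := by exact_mod_cast hqp
  have hqpos : (0 : ℝ) < q := by linarith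
  rcases Nat.lt_or_ge N (q - 1) with hNq | hNq
  · have key := P5.abel_bound (univ.filter (fun g : (ZMod q)ˣ => g ∈ G))
      (fun g => ((g * t : (ZMod q)ˣ) : ZMod q).val) (fun g => χ (g : ZMod q)) N (q - 1) hNq
      (fun g _ => by
        have := ZMod.val_lt ((g * t : (ZMod q)ˣ) : ZMod q)
        show ((g * t : (ZMod q)ˣ) : ZMod q).val ≤ q - 1
        omega)
      ((q : ℝ) ^ (-ε₁)) (by positivity)
      (fun v hv1 hv2 => by
        have h1 := h q hq0 G hG χ t v (by omega) (hN.trans (by exact_mod_cast hv1))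
        unfold IA at h1
        rw [Finset.filter_filter]
        exact h1)
    rw [Finset.filter_filter] at key
    refine key.trans ?_
    have hl1 : Real.log ((q - 1 : ℕ) : ℝ) ≤ Real.log q := by
      apply Real.log_le_log
      · have : 0 < q - 1 := by omega
        exact_mod_cast this
      · exact_mod_cast Nat.sub_le q 1
    have hl2 : Real.log q ≤ (q : ℝ) ^ (ε₁ / 4) / (ε₁ / 4) :=
      Real.log_le_rpow_div hqpos.le (by positivity)
    have hone : (1 : ℝ) ≤ (q : ℝ) ^ (ε₁ / 4) := Real.one_le_rpow hq1.le (by positivity)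
    have h3 : 2 * (2 + Real.log ((q - 1 : ℕ) : ℝ)) ≤ (2 * (2 + 4 / ε₁)) * (q : ℝ) ^ (ε₁ / 4) := by
      have e : (q : ℝ) ^ (ε₁ / 4) / (ε₁ / 4) = (4 / ε₁) * (q : ℝ) ^ (ε₁ / 4) := by
        field_simp
      rw [e] at hl2
      nlinarith
    have h4 : 2 * (2 + 4 / ε₁) ≤ (q : ℝ) ^ (ε₁ / 4) := by
      have h5 := Real.rpow_le_rpow (by positivity) hqC (show (0 : ℝ) ≤ ε₁ / 4 by positivity)
      rw [← Real.rpow_mul hC0.le] at h5
      have e : 4 / ε₁ * (ε₁ / 4) = 1 := by field_simp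
      rwa [e, Real.rpow_one] at h5
    have hp : (0 : ℝ) ≤ (q : ℝ) ^ (-ε₁) := by positivity
    calc 2 * (q : ℝ) ^ (-ε₁) * (2 + Real.log ((q - 1 : ℕ) : ℝ))
        = (q : ℝ) ^ (-ε₁) * (2 * (2 + Real.log ((q - 1 : ℕ) : ℝ))) := by ring
      _ ≤ (q : ℝ) ^ (-ε₁) * ((q : ℝ) ^ (ε₁ / 4) * (q : ℝ) ^ (ε₁ / 4)) := by
          apply mul_le_mul_of_nonneg_left _ hp
          refine h3.trans ?_
          exact mul_le_mul_of_nonneg_right h4 (by positivity)
      _ = (q : ℝ) ^ (-(ε₁ / 2)) := by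
          rw [← Real.rpow_add hqpos, ← Real.rpow_add hqpos]
          congr 1
          ring
  · have e : univ.filter (fun g : (ZMod q)ˣ => g ∈ G ∧ N < ((g * t : (ZMod q)ˣ) : ZMod q).val) = ∅ := by
      apply Finset.filter_eq_empty_iff.2
      intro g _ hg
      have h1 := ZMod.val_lt ((g * t : (ZMod q)ˣ) : ZMod q)
      omega
    rw [e, Finset.sum_empty, norm_zero]
    positivity

end Pool.Agent.K4H20.DU
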