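import Mathlib
import Pool.Agent.K4H20.DU.Spec

/-! # Dyadic blocks and exponents (helper91) -/

set_option autoImplicit false

namespace Pool.Agent.K4H20.DU
open Finset
open scoped Classical

namespace Step4

theorem expo (Q g X η : ℝ) (hQ : 1 ≤ Q) (hg : 1 ≤ g) (hη : 0 < η) (hη' : η ≤ 1 / 41)
    (hG : g ≤ Q ^ (15 / 41 - η : ℝ)) (hX : Q ^ (26 / 41 : ℝ) ≤ X) :
    4 * g ^ (8 / 3 : ℝ) * Q ^ (η / 2) + g ^ (8 / 3 : ℝ) * X ^ 2 / Q * Q ^ (η / 2) +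
      2 * g ^ (5 / 3 : ℝ) * X * Q ^ (1 / 41 : ℝ) * Q ^ (η / 2) ≤ 7 * Q ^ (-(η / 2)) * X ^ 2 := by
  have hQ0 : 0 < Q := by linarith
  have hg0 : 0 < g := by linarith
  have hX0 : 0 < X := lt_of_lt_of_le (Real.rpow_pos_of_pos hQ0 _) hX
  have h1 : g ^ (8 / 3 : ℝ) ≤ Q ^ ((15 / 41 - η) * (8 / 3) : ℝ) := by
    rw [Real.rpow_mul hQ0.le]
    exact Real.rpow_le_rpow hg0.le hG (by norm_num)
  have h2 : g ^ (5 / 3 : ℝ) ≤ Q ^ ((15 / 41 - η) * (5 / 3) : ℝ) := by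
    rw [Real.rpow_mul hQ0.le]
    exact Real.rpow_le_rpow hg0.le hG (by norm_num)
  have hX2 : Q ^ (52 / 41 : ℝ) ≤ X ^ 2 := by
    have : Q ^ (52 / 41 : ℝ) = (Q ^ (26 / 41 : ℝ)) ^ 2 := by
      rw [← Real.rpow_natCast, ← Real.rpow_mul hQ0.le]; norm_num
    rw [this]
    exact pow_le_pow_left₀ (Real.rpow_pos_of_pos hQ0 _).le hX 2
  have hp := Real.rpow_pos_of_pos hQ0 (-(η / 2))
  have t1 : 4 * g ^ (8 / 3 : ℝ) * Q ^ (η / 2) ≤ 4 * Q ^ (-(η / 2)) * X ^ 2 := by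
    calc 4 * g ^ (8 / 3 : ℝ) * Q ^ (η / 2)
        ≤ 4 * Q ^ ((15 / 41 - η) * (8 / 3) : ℝ) * Q ^ (η / 2) := by gcongr
      _ = 4 * Q ^ ((15 / 41 - η) * (8 / 3) + η / 2 : ℝ) := by rw [Real.rpow_add hQ0]; ring
      _ ≤ 4 * Q ^ (-(η / 2) + 52 / 41 : ℝ) := by
          apply mul_le_mul_of_nonneg_left _ (by norm_num)
          apply Real.rpow_le_rpow_of_exponent_le hQ
          linarith
      _ = 4 * Q ^ (-(η / 2)) * Q ^ (52 / 41 : ℝ) := by rw [Real.rpow_add hQ0]; ring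
      _ ≤ 4 * Q ^ (-(η / 2)) * X ^ 2 := by gcongr
  have t2 : g ^ (8 / 3 : ℝ) * X ^ 2 / Q * Q ^ (η / 2) ≤ 1 * Q ^ (-(η / 2)) * X ^ 2 := by
    have h3 : g ^ (8 / 3 : ℝ) / Q * Q ^ (η / 2) ≤ Q ^ (-(η / 2)) := by
      calc g ^ (8 / 3 : ℝ) / Q * Q ^ (η / 2)
          ≤ Q ^ ((15 / 41 - η) * (8 / 3) : ℝ) / Q * Q ^ (η / 2) := by gcongr
        _ = Q ^ ((15 / 41 - η) * (8 / 3) - 1 + η / 2 : ℝ) := by
            rw [Real.rpow_add hQ0, Real.rpow_sub_one hQ0.ne']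
        _ ≤ Q ^ (-(η / 2)) := by
            apply Real.rpow_le_rpow_of_exponent_le hQ
            linarith
    calc g ^ (8 / 3 : ℝ) * X ^ 2 / Q * Q ^ (η / 2)
        = (g ^ (8 / 3 : ℝ) / Q * Q ^ (η / 2)) * X ^ 2 := by ring
      _ ≤ Q ^ (-(η / 2)) * X ^ 2 := by gcongr
      _ = 1 * Q ^ (-(η / 2)) * X ^ 2 := by ring
  have t3 : 2 * g ^ (5 / 3 : ℝ) * X * Q ^ (1 / 41 : ℝ) * Q ^ (η / 2) ≤
      2 * Q ^ (-(η / 2)) * X ^ 2 := by
    have h3 : g ^ (5 / 3 : ℝ) * Q ^ (1 / 41 : ℝ) * Q ^ (η / 2) ≤ Q ^ (-(η / 2)) * X := by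
      calc g ^ (5 / 3 : ℝ) * Q ^ (1 / 41 : ℝ) * Q ^ (η / 2)
          ≤ Q ^ ((15 / 41 - η) * (5 / 3) : ℝ) * Q ^ (1 / 41 : ℝ) * Q ^ (η / 2) := by gcongr
        _ = Q ^ ((15 / 41 - η) * (5 / 3) + 1 / 41 + η / 2 : ℝ) := by
            rw [Real.rpow_add hQ0, Real.rpow_add hQ0]
        _ ≤ Q ^ (-(η / 2) + 26 / 41 : ℝ) := by
            apply Real.rpow_le_rpow_of_exponent_le hQ
            linarith
        _ = Q ^ (-(η / 2)) * Q ^ (26 / 41 : ℝ) := by rw [Real.rpow_add hQ0]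
        _ ≤ Q ^ (-(η / 2)) * X := by gcongr
    calc 2 * g ^ (5 / 3 : ℝ) * X * Q ^ (1 / 41 : ℝ) * Q ^ (η / 2)
        = 2 * (g ^ (5 / 3 : ℝ) * Q ^ (1 / 41 : ℝ) * Q ^ (η / 2)) * X := by ring
      _ ≤ 2 * (Q ^ (-(η / 2)) * X) * X := by gcongr
      _ = 2 * Q ^ (-(η / 2)) * X ^ 2 := by ring
  linarith

theorem block (Q g X η m w A M P F : ℝ) (hQ : 1 ≤ Q) (hg : 1 ≤ g) (hη : 0 < η) (hη' : η ≤ 1 / 41)
    (hG : g ≤ Q ^ (15 / 41 - η : ℝ)) (hX : Q ^ (26 / 41 : ℝ) ≤ X)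
    (hm : 0 ≤ m) (hw : 0 ≤ w) (hwX : w ≤ X) (hwm : w * m ≤ Q) (hM : 0 ≤ M) (hM2 : M ≤ 2 * m)
    (hP0 : 0 ≤ P) (hF0 : 0 ≤ F)
    (hA4 : A ^ 4 ≤ M ^ 2 * P * F / g) (hF : F ≤ 8 * Q * g ^ (8 / 3 : ℝ))
    (hP : P ≤ Q ^ (η / 2) * (g * M ^ 2 / Q + g + M * Q ^ (1 / 41 : ℝ))) :
    w * A ≤ 4 * Q * Q ^ (-(η / 8)) * Real.sqrt X := by
  have hQ0 : 0 < Q := by linarith
  have hg0 : 0 < g := by linarith
  have hX0 : 0 < X := lt_of_lt_of_le (Real.rpow_pos_of_pos hQ0 _) hX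
  have he := expo Q g X η hQ hg hη hη' hG hX
  have hgp : g ^ (8 / 3 : ℝ) = g ^ (5 / 3 : ℝ) * g := by
    have := Real.rpow_add_one hg0.ne' (5 / 3)
    rw [← this]; norm_num
  set h : ℝ := g ^ (5 / 3 : ℝ) with hh
  have hh0 : 0 < h := Real.rpow_pos_of_pos hg0 _
  set E : ℝ := Q ^ (η / 2) with hE
  have hE0 : 0 < E := Real.rpow_pos_of_pos hQ0 _
  set D : ℝ := Q ^ (1 / 41 : ℝ) with hD
  have hD0 : 0 < D := Real.rpow_pos_of_pos hQ0 _
  -- the fourth power of `A`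
  have hP' : P ≤ E * (g * (2 * m) ^ 2 / Q + g + (2 * m) * D) := by
    refine hP.trans ?_
    gcongr
  have hA4' : A ^ 4 ≤ (2 * m) ^ 2 * (E * (g * (2 * m) ^ 2 / Q + g + (2 * m) * D)) * (8 * Q * h) := by
    calc A ^ 4 ≤ M ^ 2 * P * F / g := hA4
      _ ≤ (2 * m) ^ 2 * (E * (g * (2 * m) ^ 2 / Q + g + (2 * m) * D)) * (8 * Q * (h * g)) / g := by
          rw [hgp] at hF
          gcongr
      _ = (2 * m) ^ 2 * (E * (g * (2 * m) ^ 2 / Q + g + (2 * m) * D)) * (8 * Q * h) := by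
          field_simp
  have hu0 : 0 ≤ w * m := mul_nonneg hw hm
  have h4 : (w * A) ^ 4 ≤ 32 * Q ^ 4 * (7 * Q ^ (-(η / 2)) * X ^ 2) := by
    calc (w * A) ^ 4 = w ^ 4 * A ^ 4 := by ring
      _ ≤ w ^ 4 * ((2 * m) ^ 2 * (E * (g * (2 * m) ^ 2 / Q + g + (2 * m) * D)) * (8 * Q * h)) := by
          gcongr
      _ = 32 * Q * h * E * (4 * g * (w * m) ^ 4 / Q + g * (w * m) ^ 2 * w ^ 2 +
            2 * (w * m) ^ 3 * w * D) := by
          field_simp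
          ring
      _ ≤ 32 * Q * h * E * (4 * g * Q ^ 4 / Q + g * Q ^ 2 * X ^ 2 + 2 * Q ^ 3 * X * D) := by
          gcongr
      _ = 32 * Q ^ 4 * (4 * (h * g) * E + (h * g) * X ^ 2 / Q * E + 2 * h * X * D * E) := by
          field_simp
      _ ≤ 32 * Q ^ 4 * (7 * Q ^ (-(η / 2)) * X ^ 2) := by
          rw [hgp] at he
          gcongr
  have h5 : (4 * Q * Q ^ (-(η / 8)) * Real.sqrt X) ^ 4 = 256 * Q ^ 4 * (Q ^ (-(η / 2)) * X ^ 2) := by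
    have e1 : (Q ^ (-(η / 8))) ^ 4 = Q ^ (-(η / 2)) := by
      rw [← Real.rpow_natCast, ← Real.rpow_mul hQ0.le]
      congr 1
      push_cast
      ring
    have e2 : Real.sqrt X ^ 4 = X ^ 2 := by
      have := Real.sq_sqrt hX0.le
      calc Real.sqrt X ^ 4 = (Real.sqrt X ^ 2) ^ 2 := by ring
        _ = X ^ 2 := by rw [this]
    calc (4 * Q * Q ^ (-(η / 8)) * Real.sqrt X) ^ 4
        = 256 * Q ^ 4 * ((Q ^ (-(η / 8))) ^ 4 * Real.sqrt X ^ 4) := by ring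
      _ = _ := by rw [e1, e2]
  have h6 : (w * A) ^ 4 ≤ (4 * Q * Q ^ (-(η / 8)) * Real.sqrt X) ^ 4 := by
    rw [h5]
    refine h4.trans ?_
    have h7 : 0 ≤ Q ^ 4 * (Q ^ (-(η / 2)) * X ^ 2) := by
      have := Real.rpow_pos_of_pos hQ0 (-(η / 2))
      positivity
    nlinarith
  have h8 : 0 ≤ 4 * Q * Q ^ (-(η / 8)) * Real.sqrt X := by
    have := Real.rpow_pos_of_pos hQ0 (-(η / 8))
    positivity
  exact le_of_pow_le_pow_left₀ (by norm_num) h8 h6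

/-- dyadic splitting of a sum -/
theorem dyadic (K : ℕ) (f : ℕ → ℝ) (B : ℝ) (hB : 0 ≤ B)
    (h : ∀ j : ℕ, 2 ^ j ≤ K → ∑ a ∈ (Icc 1 K).filter (fun a => Nat.log 2 a = j), f a ≤ B) :
    ∑ a ∈ Icc 1 K, f a ≤ ((Nat.log 2 K + 1 : ℕ) : ℝ) * B := by
  have hmaps : ∀ a ∈ Icc 1 K, Nat.log 2 a ∈ range (Nat.log 2 K + 1) := by
    intro a ha
    rw [mem_Icc] at ha
    rw [mem_range]
    exact Nat.lt_succ_of_le (Nat.log_mono_right ha.2)
  rw [← Finset.sum_fiberwise_of_maps_to hmaps f]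
  calc ∑ j ∈ range (Nat.log 2 K + 1), ∑ a ∈ (Icc 1 K).filter (fun a => Nat.log 2 a = j), f a
      ≤ ∑ j ∈ range (Nat.log 2 K + 1), B := by
        apply Finset.sum_le_sum
        intro j hj
        by_cases hK : K = 0
        · subst hK
          simpa using hB
        · apply h
          rw [mem_range] at hj
          exact (Nat.pow_le_of_le_log hK (Nat.lt_succ_iff.1 hj))
    _ = ((Nat.log 2 K + 1 : ℕ) : ℝ) * B := by simp

variable {q : ℕ} [Fact q.Prime]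

theorem half (hF : StFourth) (hH : StHolder) (η : ℝ) (hη : 0 < η) (hη' : η ≤ 1 / 41)
    (G : Subgroup (ZMod q)ˣ) (hG : (Fintype.card G : ℝ) ≤ (q : ℝ) ^ (15 / 41 - η : ℝ))
    (hPair : ∀ X : ℕ, X < q →
      (PX G X : ℝ) ≤ (q : ℝ) ^ (η / 2) * ((Fintype.card G : ℝ) * (X : ℝ) ^ 2 / q + (Fintype.card G : ℝ) +
      (X : ℝ) * (q : ℝ) ^ (1 / 41 : ℝ)))
    (χ : DirichletCharacter ℂ q) (t : (ZMod q)ˣ) (X : ℕ) (hX : (q : ℝ) ^ (26 / 41 : ℝ) ≤ X) :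
    ∑ a ∈ Icc 1 (q / 2), min (X : ℝ) ((q : ℝ) / a) * ‖Sx G χ ((a : ZMod q) * (t : ZMod q))‖ ≤
      ((Nat.log 2 (q / 2) + 1 : ℕ) : ℝ) * (4 * q * (q : ℝ) ^ (-(η / 8)) * Real.sqrt X) := by
  have hq : q.Prime := Fact.out
  have hq1 : (1 : ℝ) ≤ q := by exact_mod_cast hq.one_lt.le
  have hq0 : (0 : ℝ) < q := by linarith
  have hg1 : (1 : ℝ) ≤ Fintype.card G := by
    exact_mod_cast Fintype.card_pos
  have hB0 : 0 ≤ 4 * (q : ℝ) * (q : ℝ) ^ (-(η / 8)) * Real.sqrt X := by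
    have := Real.rpow_pos_of_pos hq0 (-(η / 8))
    positivity
  have hg3 : (Fintype.card G) ^ 4 < q ^ 3 := by
    have h1 : ((Fintype.card G : ℝ)) ^ 4 < (q : ℝ) ^ 3 := by
      calc ((Fintype.card G : ℝ)) ^ 4 ≤ ((q : ℝ) ^ (15 / 41 - η : ℝ)) ^ 4 := by gcongr
        _ = (q : ℝ) ^ ((15 / 41 - η) * 4 : ℝ) := by
            rw [← Real.rpow_natCast, ← Real.rpow_mul hq0.le]; norm_num
        _ < (q : ℝ) ^ (3 : ℝ) := by
            apply Real.rpow_lt_rpow_of_exponent_lt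
            · exact_mod_cast hq.one_lt
            · linarith
        _ = (q : ℝ) ^ 3 := by
            rw [← Real.rpow_natCast]; norm_num
    exact_mod_cast h1
  apply dyadic _ _ _ hB0
  intro j hj
  have h2j : 2 ^ (j + 1) ≤ q := by
    have : 2 * 2 ^ j ≤ 2 * (q / 2) := Nat.mul_le_mul_left _ hj
    have h2 : 2 * (q / 2) ≤ q := Nat.mul_div_le q 2
    rw [pow_succ]
    omega
  have hpos : 0 < 2 ^ (j + 1) := by positivity
  set M : ℕ := 2 ^ (j + 1) - 1 with hM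
  have hMq : M < q := by omega
  have hj0 : (0 : ℝ) < (2 : ℝ) ^ j := by positivity
  set w : ℝ := min (X : ℝ) ((q : ℝ) / 2 ^ j) with hw
  set A : ℝ := ∑ a ∈ Icc 1 M, ‖Sx G χ ((a : ZMod q) * (t : ZMod q))‖ with hA
  have hw0 : 0 ≤ w := le_min (by positivity) (by positivity)
  have hstep : ∑ a ∈ (Icc 1 (q / 2)).filter (fun a => Nat.log 2 a = j),
      min (X : ℝ) ((q : ℝ) / a) * ‖Sx G χ ((a : ZMod q) * (t : ZMod q))‖ ≤ w * A := by
    rw [hA, Finset.mul_sum]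
    have hsub : (Icc 1 (q / 2)).filter (fun a => Nat.log 2 a = j) ⊆ Icc 1 M := by
      intro a ha
      rw [mem_filter, mem_Icc] at ha
      rw [mem_Icc]
      refine ⟨ha.1.1, ?_⟩
      have : a < 2 ^ (j + 1) := by
        rw [← ha.2]
        exact Nat.lt_pow_succ_log_self (by norm_num) a
      omega
    calc ∑ a ∈ (Icc 1 (q / 2)).filter (fun a => Nat.log 2 a = j),
          min (X : ℝ) ((q : ℝ) / a) * ‖Sx G χ ((a : ZMod q) * (t : ZMod q))‖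
        ≤ ∑ a ∈ (Icc 1 (q / 2)).filter (fun a => Nat.log 2 a = j),
          w * ‖Sx G χ ((a : ZMod q) * (t : ZMod q))‖ := by
          apply Finset.sum_le_sum
          intro a ha
          rw [mem_filter, mem_Icc] at ha
          apply mul_le_mul_of_nonneg_right _ (norm_nonneg _)
          apply min_le_min le_rfl
          have h1 : 2 ^ j ≤ a := by
            rw [← ha.2]
            exact Nat.pow_log_le_self 2 (by omega)
          have h2 : (2 : ℝ) ^ j ≤ a := by exact_mod_cast h1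
          gcongr
      _ ≤ ∑ a ∈ Icc 1 M, w * ‖Sx G χ ((a : ZMod q) * (t : ZMod q))‖ := by
          apply Finset.sum_le_sum_of_subset_of_nonneg hsub
          intro a _ _
          exact mul_nonneg hw0 (norm_nonneg _)
  refine hstep.trans ?_
  have hM2 : (M : ℝ) ≤ 2 * (2 : ℝ) ^ j := by
    have : M ≤ 2 * 2 ^ j := by rw [hM, pow_succ]; omega
    exact_mod_cast this
  apply block (q : ℝ) (Fintype.card G : ℝ) (X : ℝ) η ((2 : ℝ) ^ j) w A (M : ℝ) (PX G M : ℝ)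
    (∑ x : ZMod q, ‖Sx G χ x‖ ^ 4) hq1 hg1 hη hη' hG hX hj0.le hw0 (min_le_left _ _)
    ?_ (Nat.cast_nonneg _) hM2 (Nat.cast_nonneg _)
    (Finset.sum_nonneg fun _ _ => by positivity) (hH q G χ t M hMq) (hF q G χ hg3) (hPair M hMq)
  calc w * 2 ^ j ≤ ((q : ℝ) / 2 ^ j) * 2 ^ j := by
        gcongr
        exact min_le_right _ _
    _ = q := by field_simp

theorem large (η : ℝ) (hη : 0 < η) : ∃ q₀ : ℕ, ∀ q : ℕ, q₀ ≤ q →
    1 + 8 * ((Nat.log 2 (q / 2) + 1 : ℕ) : ℝ) ≤ (q : ℝ) ^ (η / 16) := by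
  have h1 : (fun x : ℝ => Real.log x) =o[Filter.atTop] fun x => x ^ (η / 16) :=
    isLittleO_log_rpow_atTop (by positivity)
  have h2 := h1.bound (c := 1 / 24) (by norm_num)
  have h3 : ∀ᶠ x : ℝ in Filter.atTop, (18 : ℝ) ≤ x ^ (η / 16) :=
    (tendsto_rpow_atTop (by positivity)).eventually_ge_atTop _
  have h4 := (tendsto_natCast_atTop_atTop (R := ℝ)).eventually (h2.and h3)
  obtain ⟨N, hN⟩ := Filter.eventually_atTop.1 h4
  refine ⟨N + 1, fun q hq => ?_⟩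
  obtain ⟨h5, h6⟩ := hN q (by omega)
  have hq1 : (1 : ℝ) ≤ q := by
    have : 1 ≤ q := by omega
    exact_mod_cast this
  rw [Real.norm_of_nonneg (Real.log_nonneg hq1), Real.norm_of_nonneg (by positivity)] at h5
  have h7 : ((Nat.log 2 (q / 2) : ℕ) : ℝ) ≤ Real.logb 2 q := by
    have h8 : Nat.log 2 (q / 2) ≤ Nat.log 2 q := Nat.log_mono_right (Nat.div_le_self _ _)
    have h9 : ((Nat.log 2 q : ℕ) : ℝ) ≤ Real.logb 2 q := by
      have := Real.natLog_le_logb q 2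
      exact_mod_cast this
    have h10 : ((Nat.log 2 (q / 2) : ℕ) : ℝ) ≤ ((Nat.log 2 q : ℕ) : ℝ) := by exact_mod_cast h8
    linarith
  have h11 : Real.logb 2 q ≤ 3 / 2 * Real.log q := by
    unfold Real.logb
    rw [div_le_iff₀ (Real.log_pos (by norm_num))]
    have := Real.log_two_gt_d9
    have h12 := Real.log_nonneg hq1
    nlinarith
  push_cast
  linarith

end Step4

theorem step4 : StStep4 := by
  intro hF hH hC hP ν hν
  set η : ℝ := min ν (1 / 41) with hηdef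
  have hη : 0 < η := lt_min hν (by norm_num)
  have hη' : η ≤ 1 / 41 := min_le_right _ _
  obtain ⟨q₁, h1⟩ := hP (η / 2) (by positivity)
  obtain ⟨q₂, h2⟩ := Step4.large η hη
  refine ⟨η / 16, by positivity, max (max q₁ q₂) 3, ?_⟩
  intro q _ hq G hG χ t X hXq hX
  have hq1' : q₁ ≤ q := (le_max_left _ _).trans ((le_max_left _ _).trans hq)
  have hq2' : q₂ ≤ q := (le_max_right _ _).trans ((le_max_left _ _).trans hq)
  have hq3' : 3 ≤ q := (le_max_right _ _).trans hq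
  have hq1 : (1 : ℝ) ≤ q := by
    have : 1 ≤ q := by omega
    exact_mod_cast this
  have hq0 : (0 : ℝ) < q := by linarith
  have hX0 : (0 : ℝ) < X := lt_of_lt_of_le (Real.rpow_pos_of_pos hq0 _) hX
  have hG' : (Fintype.card G : ℝ) ≤ (q : ℝ) ^ (15 / 41 - η : ℝ) :=
    hG.trans (Real.rpow_le_rpow_of_exponent_le hq1 (by linarith [min_le_left ν (1 / 41 : ℝ)]))
  have hG'' : (Fintype.card G : ℝ) ≤ (q : ℝ) ^ (15 / 41 : ℝ) :=
    hG'.trans (Real.rpow_le_rpow_of_exponent_le hq1 (by linarith))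
  have hPair := h1 q hq1' G hG''
  have hc := hC q G χ t X hq3' hXq
  have ha := Step4.half hF hH η hη hη' G hG' hPair χ t X hX
  have hb := Step4.half hF hH η hη hη' G hG' hPair χ (-t) X hX
  have hL := h2 q hq2'
  set L : ℝ := ((Nat.log 2 (q / 2) + 1 : ℕ) : ℝ) with hLdef
  set E : ℝ := (q : ℝ) ^ (-(η / 8)) with hE
  have hE0 : 0 < E := Real.rpow_pos_of_pos hq0 _
  set s : ℝ := Real.sqrt X with hs
  have hs0 : 0 < s := Real.sqrt_pos.2 hX0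
  have hss : s * s = X := Real.mul_self_sqrt hX0.le
  have hsplit : ∑ a ∈ Icc 1 (q / 2), min (X : ℝ) ((q : ℝ) / a) *
        (‖Sx G χ ((a : ZMod q) * (t : ZMod q))‖ + ‖Sx G χ ((a : ZMod q) * ((-t : (ZMod q)ˣ) : ZMod q))‖) ≤
      2 * (L * (4 * q * E * s)) := by
    simp only [mul_add, Finset.sum_add_distrib]
    linarith
  have hfirst : (Fintype.card G : ℝ) * X / q ≤ E * s := by
    have h3 : s ≤ (q : ℝ) ^ (1 / 2 : ℝ) := by
      rw [hs, ← Real.sqrt_eq_rpow]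
      apply Real.sqrt_le_sqrt
      exact_mod_cast hXq.le
    calc (Fintype.card G : ℝ) * X / q ≤ (q : ℝ) ^ (15 / 41 : ℝ) * X / q := by gcongr
      _ = (q : ℝ) ^ (15 / 41 : ℝ) / q * s * s := by rw [← hss]; ring
      _ ≤ (q : ℝ) ^ (15 / 41 : ℝ) / q * (q : ℝ) ^ (1 / 2 : ℝ) * s := by gcongr
      _ = (q : ℝ) ^ (15 / 41 - 1 + 1 / 2 : ℝ) * s := by
          rw [Real.rpow_add hq0, Real.rpow_sub_one hq0.ne']
      _ ≤ E * s := by
          apply mul_le_mul_of_nonneg_right _ hs0.le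
          apply Real.rpow_le_rpow_of_exponent_le hq1
          linarith
  have hsecond : (1 / (q : ℝ)) * (2 * (L * (4 * q * E * s))) = 8 * L * (E * s) := by
    field_simp
    ring
  calc ‖IA G χ t X‖ ≤ _ := hc
    _ ≤ E * s + (1 / (q : ℝ)) * (2 * (L * (4 * q * E * s))) := by
        apply add_le_add hfirst
        apply mul_le_mul_of_nonneg_left hsplit (by positivity)
    _ = (1 + 8 * L) * (E * s) := by rw [hsecond]; ring
    _ ≤ (q : ℝ) ^ (η / 16) * (E * s) := by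
        apply mul_le_mul_of_nonneg_right hL (by positivity)
    _ = (q : ℝ) ^ (-(η / 16)) * s := by
        rw [hE, ← mul_assoc, ← Real.rpow_add hq0]
        congr 2
        ring

end Pool.Agent.K4H20.DU
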