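import Pool.Agent.K4H20.DU.P1
import Pool.Agent.K4H20.DU.P2
import Pool.Agent.K4H20.DU.P3
import Pool.Agent.K4H20.DU.Step4
import Pool.Agent.K4H20.DU.P5
import Pool.Agent.K4H20.DU.Br

/-! # The interval sums, from the number of pairs -/

set_option autoImplicit false

namespace Pool.Agent.K4H20.DU
open Finset
open scoped Classical

/-- the bound for the number of pairs, in the form of `Pool.Agent.K4H2.EC` -/
def StPair2 : Prop := ∀ ε : ℝ, 0 < ε → ∃ q₀ : ℕ, ∀ (q : ℕ) [Fact q.Prime], q₀ ≤ q →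
  ∀ (G : Subgroup (ZMod q)ˣ), (Fintype.card G : ℝ) ≤ (q : ℝ) ^ (15 / 41 : ℝ) → ∀ X : ℕ, X < q →
    ((Pool.Agent.K4H2.EC.PX G X).card : ℝ) ≤ (q : ℝ) ^ ε * ((Fintype.card G : ℝ) * (X : ℝ) ^ 2 / q +
      (Fintype.card G : ℝ) + (X : ℝ) * (q : ℝ) ^ (1 / 41 : ℝ))

theorem pair_of (h : StPair2) : StPair := by
  intro ε hε
  obtain ⟨q₀, hq⟩ := h ε hε
  refine ⟨q₀, fun q _ hqq G hG X hX => ?_⟩
  refine le_trans ?_ (hq q hqq G hG X hX)
  exact_mod_cast PX_le G X hX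

theorem dual_of (h : StPair2) : StDual := step5 (step4 fourth holder compl (pair_of h))

end Pool.Agent.K4H20.DU
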