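import Pool.Agent.K4H20.DU.Spec
import Pool.Agent.H435R3.HBK.App

/-! # The fourth moment of the twisted sums over a subgroup -/

set_option autoImplicit false

namespace Pool.Agent.K4H20.DU
open Finset Pool.Agent.K4H49.AC
open scoped Classical

namespace P1

variable {q : ℕ} [Fact q.Prime]

lemma conj_e (x : ZMod q) : (starRingEnd ℂ) (ZMod.stdAddChar x : ℂ) = ZMod.stdAddChar (-x) := by
  rw [AddChar.map_neg_eq_conj]

/-- Parseval -/
lemma parseval (r : ZMod q → ℂ) :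
    ∑ x : ZMod q, ‖∑ y : ZMod q, r y * ZMod.stdAddChar (x * y)‖ ^ 2 = q * ∑ y : ZMod q, ‖r y‖ ^ 2 := by
  have h1 : ∀ z : ℂ, ((‖z‖ ^ 2 : ℝ) : ℂ) = z * (starRingEnd ℂ) z := by
    intro z; rw [Complex.mul_conj, Complex.normSq_eq_norm_sq]
  have h : ((∑ x : ZMod q, ‖∑ y : ZMod q, r y * ZMod.stdAddChar (x * y)‖ ^ 2 : ℝ) : ℂ) =
      ((q * ∑ y : ZMod q, ‖r y‖ ^ 2 : ℝ) : ℂ) := by
    rw [Complex.ofReal_sum]
    simp_rw [h1]
    have h2 : ∀ x : ZMod q, (∑ y : ZMod q, r y * ZMod.stdAddChar (x * y)) *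
        (starRingEnd ℂ) (∑ y : ZMod q, r y * ZMod.stdAddChar (x * y)) =
        ∑ y : ZMod q, ∑ z : ZMod q, r y * (starRingEnd ℂ) (r z) * ZMod.stdAddChar (x * (y - z)) := by
      intro x
      rw [map_sum, Finset.sum_mul_sum]
      refine Finset.sum_congr rfl fun y _ => Finset.sum_congr rfl fun z _ => ?_
      rw [map_mul (starRingEnd ℂ), conj_e, mul_sub, sub_eq_add_neg, AddChar.map_add_eq_mul]
      ring
    rw [Finset.sum_congr rfl fun x _ => h2 x, Finset.sum_comm]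
    rw [Complex.ofReal_mul, Complex.ofReal_sum, Finset.mul_sum]
    refine Finset.sum_congr rfl fun y _ => ?_
    rw [Finset.sum_comm, Finset.sum_eq_single y]
    · rw [← Finset.mul_sum, AddChar.sum_mulShift _ (ZMod.isPrimitive_stdAddChar q), sub_self, if_pos rfl, ZMod.card,
        h1]
      push_cast
      ring
    · intro z _ hz
      rw [← Finset.mul_sum, AddChar.sum_mulShift _ (ZMod.isPrimitive_stdAddChar q),
        if_neg (sub_ne_zero.2 (Ne.symm hz))]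
      simp
    · intro h
      exact absurd (mem_univ y) h
  exact_mod_cast h

/-- number of representations as a difference -/
noncomputable def rep (G : Subgroup (ZMod q)ˣ) (y : ZMod q) : ℕ :=
  (((univ.filter (fun g : (ZMod q)ˣ => g ∈ G)) ×ˢ (univ.filter (fun g : (ZMod q)ˣ => g ∈ G))).filter
    (fun w => (w.1 : ZMod q) - (w.2 : ZMod q) = y)).card

/-- the correlation -/
noncomputable def co (G : Subgroup (ZMod q)ˣ) (χ : DirichletCharacter ℂ q) (y : ZMod q) : ℂ :=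
  ∑ w ∈ ((univ.filter (fun g : (ZMod q)ˣ => g ∈ G)) ×ˢ (univ.filter (fun g : (ZMod q)ˣ => g ∈ G))).filter
    (fun w => (w.1 : ZMod q) - (w.2 : ZMod q) = y), χ (w.1 : ZMod q) * (starRingEnd ℂ) (χ (w.2 : ZMod q))

lemma co_le (G : Subgroup (ZMod q)ˣ) (χ : DirichletCharacter ℂ q) (y : ZMod q) : ‖co G χ y‖ ≤ rep G y := by
  unfold co rep
  refine (norm_sum_le _ _).trans ?_
  rw [Finset.card_eq_sum_ones, Nat.cast_sum]
  refine Finset.sum_le_sum fun w _ => ?_
  rw [norm_mul, RCLike.norm_conj, Nat.cast_one]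
  exact mul_le_one₀ (DirichletCharacter.norm_le_one χ _) (norm_nonneg _) (DirichletCharacter.norm_le_one χ _)

lemma card_F (G : Subgroup (ZMod q)ˣ) :
    (univ.filter (fun g : (ZMod q)ˣ => g ∈ G)).card = Fintype.card G := by
  rw [Fintype.card_subtype]

lemma rep_zero (G : Subgroup (ZMod q)ˣ) : rep G 0 ≤ Fintype.card G := by
  unfold rep
  rw [← card_F]
  refine card_le_card_of_injOn (fun w => w.1) ?_ ?_
  · intro w hw
    rw [mem_coe, mem_filter, mem_product] at hw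
    exact hw.1.1
  · intro w hw w' hw' h
    rw [mem_coe, mem_filter, sub_eq_zero] at hw hw'
    have h1 : w.1 = w.2 := Units.ext hw.2
    have h2 : w'.1 = w'.2 := Units.ext hw'.2
    simp only at h
    exact Prod.ext h (by rw [← h1, ← h2, h])

lemma rep_sum (G : Subgroup (ZMod q)ˣ) : ∑ y : ZMod q, rep G y = Fintype.card G ^ 2 := by
  unfold rep
  rw [← Finset.card_eq_sum_card_fiberwise (fun _ _ => mem_coe.2 (mem_univ _)), card_product, card_F, sq]

lemma rep_bd (G : Subgroup (ZMod q)ˣ) (hG : (Fintype.card G) ^ 4 < q ^ 3) {y : ZMod q} (hy : y ≠ 0) :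
    (rep G y : ℝ) ≤ 7 * (Fintype.card G : ℝ) ^ (2 / 3 : ℝ) := by
  have h1 := Pool.Agent.H435R3.HBK.rep_le (p := q) (Fintype.card G) Fintype.card_pos hG
    ((univ.filter (fun g : (ZMod q)ˣ => g ∈ G)).image (fun g : (ZMod q)ˣ => (g : ZMod q))) 1 one_ne_zero ?_ y hy
  · refine le_trans ?_ h1
    norm_cast
    unfold rep
    refine card_le_card_of_injOn (fun w => ((w.1 : ZMod q), (w.2 : ZMod q))) ?_ ?_
    · intro w hw
      rw [mem_coe, mem_filter, mem_product] at hw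
      rw [mem_coe, mem_filter, mem_product]
      exact ⟨⟨mem_image_of_mem _ hw.1.1, mem_image_of_mem _ hw.1.2⟩, hw.2⟩
    · intro w _ w' _ h
      simp only [Prod.mk.injEq] at h
      exact Prod.ext (Units.ext h.1) (Units.ext h.2)
  · intro b hb
    obtain ⟨g, hg, rfl⟩ := mem_image.1 hb
    have hgG : g ∈ G := (mem_filter.1 hg).2
    have h2 : (⟨g, hgG⟩ : G) ^ Fintype.card G = 1 := pow_card_eq_one
    have h3 : g ^ Fintype.card G = 1 := by
      have h4 : ((⟨g, hgG⟩ : G) ^ Fintype.card G : G) = (1 : G) := h2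
      have h5 : (((⟨g, hgG⟩ : G) ^ Fintype.card G : G) : (ZMod q)ˣ) = ((1 : G) : (ZMod q)ˣ) := by rw [h4]
      rw [Subgroup.coe_pow, Subgroup.coe_one] at h5
      exact h5
    rw [← Units.val_pow_eq_pow_val, h3, Units.val_one]

lemma normsq (G : Subgroup (ZMod q)ˣ) (χ : DirichletCharacter ℂ q) (x : ZMod q) :
    Sx G χ x * (starRingEnd ℂ) (Sx G χ x) = ∑ y : ZMod q, co G χ y * ZMod.stdAddChar (x * y) := by
  unfold Sx co
  rw [map_sum, Finset.sum_mul_sum, ← Finset.sum_product']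
  rw [← Finset.sum_fiberwise_of_maps_to (t := (univ : Finset (ZMod q)))
    (g := fun w : (ZMod q)ˣ × (ZMod q)ˣ => (w.1 : ZMod q) - (w.2 : ZMod q)) (fun _ _ => mem_univ _)]
  refine Finset.sum_congr rfl fun y _ => ?_
  rw [Finset.sum_mul]
  refine Finset.sum_congr rfl fun w hw => ?_
  have h1 := (mem_filter.1 hw).2
  rw [← h1, map_mul (starRingEnd ℂ), conj_e, mul_sub, sub_eq_add_neg, AddChar.map_add_eq_mul]
  ring

end P1

theorem fourth : StFourth := by
  intro q _ G χ hG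
  have h1 : ∀ x : ZMod q, ‖Sx G χ x‖ ^ 4 = ‖∑ y : ZMod q, P1.co G χ y * ZMod.stdAddChar (x * y)‖ ^ 2 := by
    intro x
    rw [← P1.normsq, norm_mul, RCLike.norm_conj]
    ring
  rw [Finset.sum_congr rfl fun x _ => h1 x, P1.parseval]
  set g : ℝ := (Fintype.card G : ℝ) with hg
  have hg1 : 1 ≤ g := by
    rw [hg]
    exact_mod_cast (Fintype.card_pos : 0 < Fintype.card G)
  have hg0 : 0 < g := by linarith
  have h2 : ∀ y : ZMod q, ‖P1.co G χ y‖ ^ 2 ≤ (if y = 0 then g ^ 2 else 0) + 7 * g ^ (2 / 3 : ℝ) * (P1.rep G y : ℝ) := by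
    intro y
    have h3 := P1.co_le G χ y
    have h4 : (0 : ℝ) ≤ P1.rep G y := Nat.cast_nonneg _
    by_cases hy : y = 0
    · subst hy
      rw [if_pos rfl]
      have h5 : (P1.rep G (0 : ZMod q) : ℝ) ≤ g := by
        rw [hg]
        exact_mod_cast P1.rep_zero G
      have h6 : 0 ≤ 7 * g ^ (2 / 3 : ℝ) * (P1.rep G (0 : ZMod q) : ℝ) := by positivity
      have h7 : ‖P1.co G χ 0‖ ^ 2 ≤ g ^ 2 := pow_le_pow_left₀ (norm_nonneg _) (h3.trans h5) 2
      linarith
    · rw [if_neg hy, zero_add]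
      have h5 := P1.rep_bd G hG hy
      calc ‖P1.co G χ y‖ ^ 2 ≤ (P1.rep G y : ℝ) ^ 2 := pow_le_pow_left₀ (norm_nonneg _) h3 2
        _ = (P1.rep G y : ℝ) * (P1.rep G y : ℝ) := sq _
        _ ≤ _ := mul_le_mul_of_nonneg_right h5 h4
  have h3 : ∑ y : ZMod q, ‖P1.co G χ y‖ ^ 2 ≤ g ^ 2 + 7 * g ^ (2 / 3 : ℝ) * g ^ 2 := by
    refine (Finset.sum_le_sum fun y _ => h2 y).trans ?_
    rw [Finset.sum_add_distrib, Finset.sum_ite_eq' , if_pos (mem_univ _), ← Finset.mul_sum, ← Nat.cast_sum,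
      P1.rep_sum, Nat.cast_pow]
  have h4 : g ^ (2 / 3 : ℝ) * g ^ 2 = g ^ (8 / 3 : ℝ) := by
    rw [← Real.rpow_natCast g 2, ← Real.rpow_add hg0]
    norm_num
  have h5 : g ^ 2 ≤ g ^ (8 / 3 : ℝ) := by
    rw [← Real.rpow_natCast g 2]
    exact Real.rpow_le_rpow_of_exponent_le hg1 (by norm_num)
  have hq : (0 : ℝ) ≤ q := Nat.cast_nonneg _
  calc (q : ℝ) * ∑ y : ZMod q, ‖P1.co G χ y‖ ^ 2 ≤ q * (g ^ 2 + 7 * g ^ (2 / 3 : ℝ) * g ^ 2) :=
        mul_le_mul_of_nonneg_left h3 hq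
    _ ≤ q * (8 * g ^ (8 / 3 : ℝ)) := by
        apply mul_le_mul_of_nonneg_left _ hq
        rw [mul_assoc, h4]
        linarith
    _ = _ := by ring

end Pool.Agent.K4H20.DU
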